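import Pool.Agent.helper53.DC.SpecA

/-!
# Project dc, module A4c: the relations between walls are equivariant
-/

set_option autoImplicit false

namespace Pool.Agent.helper53.DC

variable {B W : Type} [Group W] {M : CoxeterMatrix B}

theorem A4c_xor (b e : Bool) : xor (xor b e) e = b := by cases b <;> cases e <;> rfl

theorem A4c_cross (h : A4b_stmt) (cs : CoxeterSystem M W) (g : W) (r r' : Wall cs)
    (hc : (cw cs).Cross r r') : (cw cs).Cross (g • r) (g • r') := by
  intro b b'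
  obtain ⟨e, he⟩ := h cs g r
  obtain ⟨e', he'⟩ := h cs g r'
  obtain ⟨x, hx, hx'⟩ := hc (xor b e) (xor b' e')
  exact ⟨g * x, (he x b).mpr hx, (he' x b').mpr hx'⟩

theorem A4c_btw (h : A4b_stmt) (cs : CoxeterSystem M W) (g : W) (v r r' : Wall cs)
    (hc : (cw cs).Btw (g • v) (g • r) (g • r')) : (cw cs).Btw v r r' := by
  obtain ⟨b, ⟨hne, b1, h1⟩, ⟨hne', b2, h2⟩⟩ := hc
  obtain ⟨e, he⟩ := h cs g v
  obtain ⟨e1, he1⟩ := h cs g r
  obtain ⟨e2, he2⟩ := h cs g r'
  refine ⟨xor b e, ⟨fun h0 => hne (by rw [h0]), xor b1 e1, ?_⟩,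
    ⟨fun h0 => hne' (by rw [h0]), xor b2 e2, ?_⟩⟩
  · intro x hx
    exact (he x b).mp (h1 ((he1 x b1).mpr hx))
  · intro x hx
    have h3 := (he x (!b)).mp (h2 ((he2 x b2).mpr hx))
    have h4 : xor (!b) e = !(xor b e) := by cases b <;> cases e <;> rfl
    rw [h4] at h3
    exact h3

theorem A4c_inv (cs : CoxeterSystem M W) (g : W) (r : Wall cs) : g⁻¹ • (g • r) = r :=
  inv_smul_smul g r

theorem A4c (h : A4b_stmt) : A4c_stmt := by
  intro B W _ M cs g
  have hcr : ∀ r r', (cw cs).Cross (g • r) (g • r') ↔ (cw cs).Cross r r' := by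
    intro r r'
    refine ⟨fun hc => ?_, A4c_cross h cs g r r'⟩
    have := A4c_cross h cs g⁻¹ _ _ hc
    rwa [A4c_inv, A4c_inv] at this
  have hb : ∀ v r r', (cw cs).Btw (g • v) (g • r) (g • r') ↔ (cw cs).Btw v r r' := by
    intro v r r'
    refine ⟨A4c_btw h cs g v r r', fun hc => ?_⟩
    apply A4c_btw h cs g⁻¹
    rw [A4c_inv, A4c_inv, A4c_inv]
    exact hc
  refine ⟨hcr, ?_, hb, ?_, ?_⟩
  · intro r r'
    constructor
    · rintro ⟨hne, hn⟩
      exact ⟨fun h0 => hne (by rw [h0]), fun hc => hn ((hcr r r').mpr hc)⟩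
    · rintro ⟨hne, hn⟩
      exact ⟨fun h0 => hne (MulAction.injective g h0), fun hc => hn ((hcr r r').mp hc)⟩
  · intro m r r'
    constructor
    · rintro ⟨v, h1, h2⟩
      have hv : ∀ i, g • (g⁻¹ • v i) = v i := fun i => smul_inv_smul g (v i)
      refine ⟨fun i => g⁻¹ • v i, ?_, ?_⟩
      · intro i hi
        rw [← hb, hv]
        exact h1 i hi
      · intro i j hij hj
        obtain ⟨h3, h4⟩ := h2 i j hij hj
        rw [← hb, ← hb (g⁻¹ • v j), hv, hv]
        exact ⟨h3, h4⟩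
    · rintro ⟨v, h1, h2⟩
      refine ⟨fun i => g • v i, ?_, ?_⟩
      · intro i hi
        rw [hb]
        exact h1 i hi
      · intro i j hij hj
        obtain ⟨h3, h4⟩ := h2 i j hij hj
        rw [hb, hb]
        exact ⟨h3, h4⟩
  · intro r x
    rw [mem_Car, mem_Car, DD_smul]

end Pool.Agent.helper53.DC
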