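import Pool.Agent.helper58.DC.Spec1

set_option autoImplicit false

namespace Pool.Agent.helper52.DC

open Pool.Agent.helper58.DC

theorem OP_mem {G T : Type} [Group G] (x y : T → G) :
    y ∈ conjugatesOf x ↔ ∀ t, y t ∈ conjugatesOf (x t) := by
  change IsConj x y ↔ ∀ t, IsConj (x t) (y t)
  simp only [isConj_iff]
  constructor
  · rintro ⟨c, hc⟩ t
    exact ⟨c t, by rw [← hc]; rfl⟩
  · intro h
    choose c hc using h
    exact ⟨c, by funext t; exact hc t⟩

open Classical in
theorem OP : OP_stmt := by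
  intro G T _ _ _ ψ x
  letI : Fintype G := Fintype.ofFinite G
  have hfin : ∀ (H : Type) [Group H] [Fintype H] (f : H → ℂ) (z : H),
      (∑ᶠ y ∈ conjugatesOf z, f y) = ∑ y ∈ Finset.univ.filter (fun y => y ∈ conjugatesOf z), f y := by
    intro H _ _ f z
    rw [← finsum_mem_coe_finset]
    congr 1
    funext y
    simp
  unfold omega
  rw [hfin, Finset.prod_div_distrib]
  congr 1
  have h1 : ∀ t, (∑ᶠ y ∈ conjugatesOf (x t), ψ t y) =
      ∑ y ∈ Finset.univ.filter (fun y => y ∈ conjugatesOf (x t)), ψ t y := fun t => hfin G (ψ t) (x t)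
  rw [Finset.prod_congr rfl (fun t _ => h1 t)]
  rw [Finset.prod_univ_sum]
  refine Finset.sum_congr ?_ (fun y _ => rfl)
  ext y
  simp only [Finset.mem_filter, Finset.mem_univ, true_and, Fintype.mem_piFinset]
  exact OP_mem x y

end Pool.Agent.helper52.DC
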