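import Pool.Agent.helper58.DC.Spec2

/-! # `OS`: the signed number of invariant paths -/

set_option autoImplicit false

namespace Pool.Agent.helper52.DC

open Pool.Agent.helper58.DC

theorem OS_iff {T Q : Type} [DecidableEq (T → ℕ)] (π : T → Q) (hπ : Function.Surjective π) (a' : Q → ℕ)
    (W' : Finset (Q → ℕ)) :
    IsPath (fun t => a' (π t)) (W'.image fun r t => r (π t)) ↔ IsPath a' W' := by
  have hle : ∀ r s : Q → ℕ, (fun t => r (π t)) ≤ (fun t => s (π t)) ↔ r ≤ s := fun r s =>
    ⟨fun h q => by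
      obtain ⟨t, rfl⟩ := hπ q
      exact h t, fun h t => h (π t)⟩
  have hinj : Function.Injective (fun (r : Q → ℕ) (t : T) => r (π t)) := by
    intro r s h
    funext q
    obtain ⟨t, rfl⟩ := hπ q
    exact congrFun h t
  constructor
  · rintro ⟨h1, h2, h3, h4⟩
    refine ⟨Finset.image_nonempty.1 h1, ?_, ?_, ?_⟩
    · intro r hr s hs hrs
      have h5 := h2 (Finset.mem_coe.2 (Finset.mem_image_of_mem _ (Finset.mem_coe.1 hr)))
        (Finset.mem_coe.2 (Finset.mem_image_of_mem _ (Finset.mem_coe.1 hs)))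
        (fun h => hrs (hinj h))
      rcases h5 with h | h
      · exact Or.inl ((hle _ _).1 h)
      · exact Or.inr ((hle _ _).1 h)
    · intro r hr q
      obtain ⟨t, rfl⟩ := hπ q
      exact h3 _ (Finset.mem_image_of_mem _ hr) t
    · intro q j hj
      obtain ⟨t, rfl⟩ := hπ q
      obtain ⟨r, hr, hrj⟩ := h4 t j hj
      obtain ⟨r', hr', rfl⟩ := Finset.mem_image.1 hr
      exact ⟨r', hr', hrj⟩
  · rintro ⟨h1, h2, h3, h4⟩
    refine ⟨h1.image _, ?_, ?_, ?_⟩
    · intro r hr s hs hrs
      obtain ⟨r', hr', rfl⟩ := Finset.mem_image.1 (Finset.mem_coe.1 hr)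
      obtain ⟨s', hs', rfl⟩ := Finset.mem_image.1 (Finset.mem_coe.1 hs)
      have hne : r' ≠ s' := fun h => hrs (by rw [h])
      rcases h2 (Finset.mem_coe.2 hr') (Finset.mem_coe.2 hs') hne with h | h
      · exact Or.inl ((hle _ _).2 h)
      · exact Or.inr ((hle _ _).2 h)
    · intro r hr t
      obtain ⟨r', hr', rfl⟩ := Finset.mem_image.1 hr
      exact h3 r' hr' (π t)
    · intro t j hj
      obtain ⟨r, hr, hrj⟩ := h4 (π t) j hj
      exact ⟨_, Finset.mem_image_of_mem _ hr, hrj⟩

theorem OS (hPSG : PSG_stmt) (hIVP : IVP_stmt) : OS_stmt := by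
  classical
  intro L T _ _ _ V a ha
  have hfq : Finite (MulAction.orbitRel.Quotient V T) := Quotient.finite _
  have hft : Fintype (MulAction.orbitRel.Quotient V T) := Fintype.ofFinite _
  obtain ⟨π, hπdef⟩ : ∃ π : T → MulAction.orbitRel.Quotient V T, ∀ t, π t = Quotient.mk'' t :=
    ⟨fun t => Quotient.mk'' t, fun _ => rfl⟩
  have hπ : Function.Surjective π := by
    intro q
    obtain ⟨t, ht⟩ := Quotient.mk''_surjective q
    exact ⟨t, by rw [hπdef]; exact ht⟩
  have hinj : Function.Injective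
      (fun (r : MulAction.orbitRel.Quotient V T → ℕ) (t : T) => r (π t)) := by
    intro r s h
    funext q
    obtain ⟨t, rfl⟩ := hπ q
    exact congrFun h t
  have hπv : ∀ v ∈ V, ∀ t, π (v • t) = π t := by
    intro v hv t
    rw [hπdef, hπdef]
    exact Quotient.sound' ⟨⟨v, hv⟩, rfl⟩
  have hout : ∀ f : T → ℕ, (∀ v ∈ V, ∀ t, f (v • t) = f t) → ∀ t, f (π t).out = f t := by
    intro f hf t
    have h1 : (Quotient.mk'' (π t).out : MulAction.orbitRel.Quotient V T) = Quotient.mk'' t := by
      rw [← hπdef t]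
      exact Quotient.out_eq' _
    have h2 := Quotient.exact' h1
    obtain ⟨v, hv⟩ := h2
    have h3 : (v : L) • t = (π t).out := hv
    rw [← h3]
    exact hf v v.2 t
  have ha' : (fun t => a (π t).out) = a := funext (hout a ha)
  have key := hPSG (MulAction.orbitRel.Quotient V T) (fun O => a O.out)
  rw [finprod_eq_prod_of_fintype, ← key]
  symm
  refine finsum_eq_of_bijective (fun W' : {W : Finset (MulAction.orbitRel.Quotient V T → ℕ) //
      IsPath (fun O => a O.out) W} => (⟨W'.1.image fun r t => r (π t), ?_, ?_⟩ :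
      {W : Finset (T → ℕ) // IsPath a W ∧ ∀ v ∈ V, wAct v W = W})) ⟨?_, ?_⟩ ?_
  · have h1 := (OS_iff π hπ (fun O => a O.out) W'.1).2 W'.2
    rwa [ha'] at h1
  · have h1 := (OS_iff π hπ (fun O => a O.out) W'.1).2 W'.2
    intro v hv
    rw [hIVP L T v _ h1.2.1]
    intro r hr t
    obtain ⟨r', _, rfl⟩ := Finset.mem_image.1 hr
    change r' (π (v • t)) = r' (π t)
    rw [hπv v hv]
  · intro W1 W2 h
    have h1 := congrArg Subtype.val h
    exact Subtype.ext (Finset.image_injective hinj h1)
  · rintro ⟨W, hW, hV⟩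
    have hinv : ∀ r ∈ W, ∀ v ∈ V, ∀ t, r (v • t) = r t := by
      intro r hr v hv t
      exact (hIVP L T v W hW.2.1).1 (hV v hv) r hr t
    have himg : ((W.image fun r (O : MulAction.orbitRel.Quotient V T) => r O.out).image
        fun r t => r (π t)) = W := by
      rw [Finset.image_image]
      have h1 : W.image ((fun (r : MulAction.orbitRel.Quotient V T → ℕ) (t : T) => r (π t)) ∘
          fun r (O : MulAction.orbitRel.Quotient V T) => r O.out) = W.image id := by
        refine Finset.image_congr fun r hr => ?_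
        funext t
        exact hout r (hinv r hr) t
      rw [h1, Finset.image_id]
    refine ⟨⟨W.image fun r (O : MulAction.orbitRel.Quotient V T) => r O.out, ?_⟩, ?_⟩
    · rw [← OS_iff π hπ, himg, ha']
      exact hW
    · exact Subtype.ext himg
  · intro W'
    change (-1 : ℤ) ^ (W'.1.card - 1) = (-1 : ℤ) ^ ((W'.1.image fun r t => r (π t)).card - 1)
    rw [Finset.card_image_of_injective _ hinj]

end Pool.Agent.helper52.DC
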